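import Mathlib

set_option maxHeartbeats 400000

namespace Pool.Agent.H.MP_e032dc_al

/-- the quasicyclic 2-group, by its properties -/
class Pru (A : Type) [AddCommGroup A] : Prop where
  tors : ∀ x : A, ∃ m : ℕ, 2 ^ m • x = 0
  uniq : ∀ x y : A, 2 • x = 0 → 2 • y = 0 → x ≠ 0 → y ≠ 0 → x = y
  big : ∀ m : ℕ, ∃ x : A, 2 ^ (m + 1) • x = 0 ∧ 2 ^ m • x ≠ 0

theorem exists_pru : ∃ (A : Type) (_ : AddCommGroup A), Pru A := by
  let S : AddSubgroup (AddCircle (1 : ℚ)) :=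
    { carrier := {x | ∃ m : ℕ, 2 ^ m • x = 0}
      zero_mem' := ⟨0, by simp⟩
      neg_mem' := fun ⟨m, h⟩ => ⟨m, by rw [smul_neg, h, neg_zero]⟩
      add_mem' := fun {a b} ⟨m, h⟩ ⟨n, h'⟩ => ⟨m + n, by
        rw [smul_add, pow_add, mul_comm, mul_smul, h, mul_comm, mul_smul, h']; simp⟩ }
  have hz : ∀ q : ℚ, ((q : AddCircle (1 : ℚ)) = 0) ↔ ∃ n : ℤ, (n : ℚ) = q := fun q => by
    rw [AddCircle.coe_eq_zero_iff]; simp
  have hh : ∀ x : AddCircle (1 : ℚ), 2 • x = 0 → x ≠ 0 → x = ((1 / 2 : ℚ) : AddCircle (1 : ℚ)) := by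
    intro x hx h0
    obtain ⟨q, rfl⟩ := QuotientAddGroup.mk_surjective x
    rw [← AddCircle.coe_nsmul, hz] at hx
    obtain ⟨n, hn⟩ := hx
    rw [← sub_eq_zero, ← AddCircle.coe_sub, hz]
    rcases Int.even_or_odd' n with ⟨k, rfl | rfl⟩
    · exact absurd ((hz q).2 ⟨k, by push_cast [nsmul_eq_mul] at hn; linarith⟩) h0
    · exact ⟨k, by push_cast [nsmul_eq_mul] at hn; linarith⟩
  have hp : ∀ m : ℕ, 2 ^ (m + 1) • (((1 / 2 ^ (m + 1) : ℚ)) : AddCircle (1 : ℚ)) = 0 := fun m => by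
    rw [← AddCircle.coe_nsmul, hz]
    exact ⟨1, by simp⟩
  refine ⟨S, inferInstance, fun x => ?_, fun x y hx hy h1 h2 => ?_, fun m => ?_⟩
  · obtain ⟨m, h⟩ := x.2
    exact ⟨m, Subtype.ext h⟩
  · exact Subtype.ext ((hh x (congrArg Subtype.val hx) fun h => h1 (Subtype.ext h)).trans
      (hh y (congrArg Subtype.val hy) fun h => h2 (Subtype.ext h)).symm)
  · refine ⟨⟨_, m + 1, hp m⟩, Subtype.ext (hp m), fun h => ?_⟩
    have h1 : 2 ^ m • (((1 / 2 ^ (m + 1) : ℚ)) : AddCircle (1 : ℚ)) = 0 := congrArg Subtype.val h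
    rw [← AddCircle.coe_nsmul, hz] at h1
    obtain ⟨n, hn⟩ := h1
    have h2 : (2 : ℚ) * n = 1 := by rw [hn, nsmul_eq_mul]; push_cast; field_simp; ring
    have h3 : (2 : ℤ) * n = 1 := by exact_mod_cast h2
    omega

variable {A : Type} [AddCommGroup A]

variable (A) in
def B (m : ℕ) : AddSubgroup A where
  carrier := {x | 2 ^ m • x = 0}
  zero_mem' := by simp
  neg_mem' := fun {a} h => by simp only [Set.mem_setOf_eq] at *; rw [smul_neg, h, neg_zero]
  add_mem' := fun {a b} h h' => by simp only [Set.mem_setOf_eq] at *; rw [smul_add, h, h', add_zero]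

theorem mem_B {m : ℕ} {x : A} : x ∈ B A m ↔ 2 ^ m • x = 0 := Iff.rfl

theorem B_mono {m n : ℕ} (h : m ≤ n) {x : A} (hx : x ∈ B A m) : x ∈ B A n := by
  obtain ⟨k, rfl⟩ := Nat.exists_eq_add_of_le h
  rw [mem_B, pow_add, mul_comm, mul_smul, mem_B.1 hx, smul_zero]

theorem B_zero {x : A} : x ∈ B A 0 ↔ x = 0 := by simp [mem_B]

theorem two_mem {m : ℕ} {x : A} : 2 • x ∈ B A m ↔ x ∈ B A (m + 1) := by
  rw [mem_B, mem_B, ← mul_smul, pow_succ]

theorem two_mem' {m : ℕ} {x : A} (h : x ∈ B A m) : 2 • x ∈ B A (m - 1) :=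
  two_mem.2 (B_mono (by omega) h)

theorem pow_mem_B {m j : ℕ} {x : A} : 2 ^ j • x ∈ B A m ↔ x ∈ B A (m + j) := by
  rw [mem_B, mem_B, ← mul_smul, pow_add]

/-- exact level -/
def Ex (i : ℕ) (c : A) : Prop := c ∈ B A i ∧ ∀ j < i, c ∉ B A j

theorem Ex.add {i j : ℕ} {c d : A} (h : Ex i c) (hd : d ∈ B A j) (hj : j < i ∨ j = 0) :
    Ex i (c + d) := by
  rcases hj with hj | rfl
  · refine ⟨add_mem h.1 (B_mono hj.le hd), fun l hl h' => h.2 (max l j) (by omega) ?_⟩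
    have := sub_mem (B_mono (le_max_left l j) h') (B_mono (le_max_right l j) hd)
    rwa [add_sub_cancel_right] at this
  · rw [B_zero.1 hd, add_zero]; exact h

theorem Ex.two {i : ℕ} {c : A} (h : Ex (i + 1) c) : Ex i (2 • c) :=
  ⟨two_mem.2 h.1, fun j hj h' => h.2 (j + 1) (by omega) (two_mem.1 h')⟩

theorem Ex.pow {i j : ℕ} {c : A} (h : Ex (i + j) c) : Ex i (2 ^ j • c) :=
  ⟨pow_mem_B.2 h.1, fun l hl h' => h.2 (l + j) (by omega) (pow_mem_B.1 h')⟩

theorem Ex.of_not {i : ℕ} {c : A} (h : c ∈ B A (i + 1)) (h' : c ∉ B A i) : Ex (i + 1) c :=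
  ⟨h, fun j hj h2 => h' (B_mono (by omega) h2)⟩

variable [Pru A]

theorem exists_B (x : A) : ∃ m, x ∈ B A m := Pru.tors x

theorem exists_Ex (x : A) : ∃ m, Ex m x := by
  classical
  exact ⟨Nat.find (exists_B x), Nat.find_spec (exists_B x), fun j hj => Nat.find_min _ hj⟩

theorem sub_mem_B {m : ℕ} {x y : A} (hx : x ∈ B A (m + 1)) (hy : y ∈ B A (m + 1))
    (hx' : x ∉ B A m) (hy' : y ∉ B A m) : x - y ∈ B A m := by
  rw [mem_B, smul_sub, sub_eq_zero]
  refine Pru.uniq _ _ ?_ ?_ hx' hy' <;> rw [← mul_smul, ← pow_succ']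
  exacts [hx, hy]

variable (A) in
theorem exists_Ex' (m : ℕ) : ∃ x : A, Ex (m + 1) x := by
  obtain ⟨x, h1, h2⟩ := Pru.big (A := A) m
  exact ⟨x, Ex.of_not h1 h2⟩

variable (A) in
theorem B_fin (m : ℕ) : (B A m : Set A).Finite := by
  induction m with
  | zero => exact (Set.finite_singleton 0).subset fun x hx => B_zero.1 hx
  | succ m ih =>
    obtain ⟨e, he⟩ := exists_Ex' A m
    refine (ih.union (ih.image fun x => x + e)).subset fun x hx => ?_
    by_cases h : x ∈ B A m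
    · exact Or.inl h
    · exact Or.inr ⟨x - e, sub_mem_B hx he.1 h (he.2 m (by omega)), by simp⟩

theorem ball_fin (x : A) (m : ℕ) : {y | y - x ∈ B A m}.Finite :=
  ((B_fin A m).image fun y => y + x).subset fun y hy => ⟨y - x, hy, by simp⟩

theorem fin_sub {S : Set A} (h : S.Finite) : ∃ n, ∀ x ∈ S, x ∈ B A n := by
  choose f hf using exists_B (A := A)
  obtain ⟨n, hn⟩ := (h.image f).bddAbove
  exact ⟨n, fun x hx => B_mono (hn ⟨x, hx, rfl⟩) (hf x)⟩

theorem Ex.cyc {i : ℕ} : ∀ {c z : A}, Ex i c → z ∈ B A i → ∃ j : ℕ, z = j • c := by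
  induction i with
  | zero => intro c z _ hz; exact ⟨0, by simpa using B_zero.1 hz⟩
  | succ i ih =>
    intro c z hc hz
    by_cases h : z ∈ B A i
    · obtain ⟨j, hj⟩ := ih hc.two h
      exact ⟨j * 2, by rw [mul_smul, hj]⟩
    · obtain ⟨j, hj⟩ := ih hc.two (sub_mem_B hz hc.1 h (hc.2 i (by omega)))
      exact ⟨j * 2 + 1, by rw [add_smul, mul_smul, ← hj]; simp⟩

def D (g : Equiv.Perm A) (x : A) : A := g x - x

def Lp (g : Equiv.Perm A) : Prop := ∀ m x y, x - y ∈ B A m → D g x - D g y ∈ B A (m / 3)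

omit [Pru A] in
theorem D_mul (g h : Equiv.Perm A) (x : A) : D (g * h) x = D h x + D g (h x) := by simp [D]

omit [Pru A] in
theorem Lp.iso {g : Equiv.Perm A} (hg : Lp g) {m : ℕ} {x y : A} (h : x - y ∈ B A m) :
    g x - g y ∈ B A m := by
  have := add_mem h (B_mono (Nat.div_le_self m 3) (hg m x y h))
  convert this using 1
  simp only [D]; abel

omit [Pru A] in
theorem Lp.ex {g : Equiv.Perm A} (hg : Lp g) {m : ℕ} {x y : A} (h : Ex m (x - y)) :
    Ex m (g x - g y) := by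
  have := h.add (hg m x y h.1) (by omega)
  convert this using 1
  simp only [D]; abel

theorem Lp.iso' {g : Equiv.Perm A} (hg : Lp g) {m : ℕ} {x y : A} (h : g x - g y ∈ B A m) :
    x - y ∈ B A m := by
  obtain ⟨j, hj⟩ := exists_Ex (x - y)
  by_cases hjm : j ≤ m
  · exact B_mono hjm hj.1
  · exact absurd h ((hg.ex hj).2 m (by omega))

variable (A) in
def GG : Subgroup (Equiv.Perm A) where
  carrier := {g | Lp g}
  one_mem' := fun m x y _ => by simp [D]
  mul_mem' := fun {g h} hg hh m x y hxy => by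
    have := add_mem (hh m x y hxy) (hg m _ _ (Lp.iso hh hxy))
    convert this using 1
    simp only [D_mul]; abel
  inv_mem' := fun {g} hg m x y hxy => by
    have := neg_mem (hg m (g⁻¹ x) (g⁻¹ y) (Lp.iso' hg (by simpa using hxy)))
    convert this using 1
    simp only [D, Equiv.Perm.coe_inv, Equiv.apply_symm_apply]; abel

omit [Pru A] in
theorem D_sq (g : Equiv.Perm A) (x : A) : D (g ^ 2) x = 2 • D g x + (D g (g x) - D g x) := by
  rw [sq, D_mul, two_smul]; abel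

theorem sq_mem {g : Equiv.Perm A} (hg : g ∈ GG A) {m : ℕ} {x : A} (h : D g x ∈ B A m) :
    D (g ^ 2) x ∈ B A (m - 1) := by
  rw [D_sq]
  exact add_mem (two_mem' h) (B_mono (by omega) (hg m _ _ h))

theorem sq_ex {g : Equiv.Perm A} (hg : g ∈ GG A) {m : ℕ} {x : A} (h : Ex (m + 1) (D g x)) :
    Ex m (D (g ^ 2) x) := by
  rw [D_sq]
  exact h.two.add (hg _ _ _ h.1) (by omega)

theorem pow_mem_D {g : Equiv.Perm A} (hg : g ∈ GG A) {m : ℕ} {x : A} (h : D g x ∈ B A m) (t : ℕ) :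
    D (g ^ 2 ^ t) x ∈ B A (m - t) := by
  induction t with
  | zero => simpa using h
  | succ t ih => rw [pow_succ, pow_mul]; exact sq_mem ((GG A).pow_mem hg _) ih

theorem pow_ex {g : Equiv.Perm A} (hg : g ∈ GG A) {x : A} (t : ℕ) :
    ∀ {m : ℕ}, Ex (m + t) (D g x) → Ex m (D (g ^ 2 ^ t) x) := by
  induction t with
  | zero => intro m h; simpa using h
  | succ t ih =>
    intro m h
    rw [pow_succ, pow_mul]
    exact sq_ex ((GG A).pow_mem hg _) (ih (by rwa [add_assoc, add_comm 1 t]))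

theorem cyc_ge {j : ℕ} : ∀ {g : Equiv.Perm A}, g ∈ GG A → ∀ {x : A}, Ex j (D g x) →
    ∀ y, y - x ∈ B A j → ∃ n : ℕ, (g ^ n) x = y := by
  induction j with
  | zero => intro g _ x _ y hy; exact ⟨0, (sub_eq_zero.1 (B_zero.1 hy)).symm⟩
  | succ j ih =>
    intro g hg x hx y hy
    have h2 := ih ((GG A).pow_mem hg 2) (sq_ex hg hx)
    by_cases h : y - x ∈ B A j
    · obtain ⟨n, hn⟩ := h2 y h
      exact ⟨2 * n, by rwa [pow_mul]⟩
    · have h3 := sub_mem_B hy hx.1 h (hx.2 j (by omega))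
      obtain ⟨n, hn⟩ := h2 (g⁻¹ y) (Lp.iso' hg (by simpa [D] using h3))
      exact ⟨2 * n + 1, by rw [pow_succ', pow_mul, Equiv.Perm.mul_apply, hn]; simp⟩

theorem cyc_le {g : Equiv.Perm A} (hg : g ∈ GG A) {j : ℕ} {x : A} (hx : D g x ∈ B A j) (n : ℤ) :
    (g ^ n) x - x ∈ B A j := by
  induction n using Int.induction_on with
  | zero => simp
  | succ n ih =>
    rw [add_comm, zpow_add, zpow_one, Equiv.Perm.mul_apply]
    simpa [D] using add_mem (Lp.iso hg ih) hx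
  | pred n ih =>
    rw [sub_eq_add_neg (-(n : ℤ)), add_comm, zpow_add, zpow_neg_one, Equiv.Perm.mul_apply]
    refine Lp.iso' hg ?_
    simpa [D] using sub_mem ih hx

theorem block {g : Equiv.Perm A} (hg : g ∈ GG A) (x : A) (j : ℕ) :
    g '' {y | y - x ∈ B A j} = {y | y - x ∈ B A j} ∨
      Disjoint (g '' {y | y - x ∈ B A j}) {y | y - x ∈ B A j} := by
  by_cases h : g x - x ∈ B A j
  · left
    ext y
    constructor
    · rintro ⟨z, hz, rfl⟩
      simpa using add_mem (Lp.iso hg hz) h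
    · intro hy
      exact ⟨g⁻¹ y, Lp.iso' hg (by simpa using sub_mem hy h), by simp⟩
  · right
    refine Set.disjoint_left.2 ?_
    rintro _ ⟨z, hz, rfl⟩ h'
    exact h (by simpa using sub_mem h' (Lp.iso hg hz))

theorem pure {g : Equiv.Perm A} (hg : g ∈ GG A) {L : ℕ} (hL : ∀ x, D g x ∈ B A L) {n : ℕ} {x y : A}
    (h : x - y ∈ B A n) (t : ℕ) :
    D (g ^ 2 ^ t) x - D (g ^ 2 ^ t) y ∈ B A (max ((L - t + 1) / 3) (n / 3 - t)) := by
  induction t with
  | zero => simpa using B_mono (by omega) (hg n x y h)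
  | succ t ih =>
    have hg' := (GG A).pow_mem hg (2 ^ t)
    have h1 := hg' _ _ _ (pow_mem_D hg (hL x) t)
    have h2 := hg' _ _ _ (pow_mem_D hg (hL y) t)
    have h3 := add_mem (B_mono (n := max ((L - (t + 1) + 1) / 3) (n / 3 - (t + 1))) (by omega)
      (two_mem' ih)) (sub_mem (B_mono (by omega) h1) (B_mono (by omega) h2))
    rw [pow_succ, pow_mul, D_sq, D_sq]
    convert h3 using 1
    rw [smul_sub]; abel

end Pool.Agent.H.MP_e032dc_al
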