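import Pool.Agent.H.MP_e032dc_al.Tau

set_option maxHeartbeats 400000

namespace Pool.Agent.H.MP_e032dc_al

open Classical

variable {A : Type} [AddCommGroup A] [Pru A] {H : Subgroup (Equiv.Perm A)}

def Rep (H : Subgroup (Equiv.Perm A)) (k N : ℕ) (F : A → A) : Prop :=
  ∃ u ∈ H, (∀ x, D u x ∈ B A k) ∧ (∀ x ∉ B A N, u x = x) ∧ ∀ x, D u x - F x ∈ B A ((k + 1) / 3)

omit [Pru A] in
theorem Rep.zero (k N : ℕ) : Rep H k N 0 :=
  ⟨1, H.one_mem, fun x => by simp [D], fun _ _ => rfl, fun x => by simp [D]⟩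

omit [Pru A] in
theorem Rep.mono {k N N' : ℕ} {F : A → A} (h : Rep H k N F) (hN : N ≤ N') : Rep H k N' F := by
  obtain ⟨u, h1, h2, h3, h4⟩ := h
  exact ⟨u, h1, h2, fun x hx => h3 x fun h => hx (B_mono hN h), h4⟩

omit [Pru A] in
theorem Rep.congr {k N : ℕ} {F F' : A → A} (h : Rep H k N F)
    (hF : ∀ x, F x - F' x ∈ B A ((k + 1) / 3)) : Rep H k N F' := by
  obtain ⟨u, h1, h2, h3, h4⟩ := h
  exact ⟨u, h1, h2, h3, fun x => by simpa using add_mem (h4 x) (hF x)⟩

omit [Pru A] in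
theorem Rep.out {k N : ℕ} {F : A → A} (h : Rep H k N F) {x : A} (hx : x ∉ B A N) :
    F x ∈ B A ((k + 1) / 3) := by
  obtain ⟨u, -, -, h3, h4⟩ := h
  simpa [D, h3 x hx] using h4 x

theorem Rep.add (hH : H ≤ GG A) {k N : ℕ} {F F' : A → A} (h : Rep H k N F) (h' : Rep H k N F') :
    Rep H k N (F + F') := by
  obtain ⟨u, h1, h2, h3, h4⟩ := h
  obtain ⟨v, h1', h2', h3', h4'⟩ := h'
  refine ⟨u * v, H.mul_mem h1 h1', fun x => by rw [D_mul]; exact add_mem (h2' _) (h2 _),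
    fun x hx => by rw [Equiv.Perm.mul_apply, h3' x hx, h3 x hx], fun x => ?_⟩
  have := add_mem (add_mem (h4 x) (h4' x))
    (B_mono (show k / 3 ≤ (k + 1) / 3 by omega) (hH h1 k _ _ (h2' x)))
  convert this using 1
  rw [D_mul, Pi.add_apply]; abel

theorem Rep.nsmul (hH : H ≤ GG A) {k N : ℕ} {F : A → A} (h : Rep H k N F) (j : ℕ) :
    Rep H k N (j • F) := by
  induction j with
  | zero => rw [zero_smul]; exact Rep.zero k N
  | succ j ih => rw [succ_nsmul]; exact ih.add hH h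

theorem Rep.conj1 (hfin : ∀ g ∈ H, ∃ n, ∀ x ∉ B A n, g x = x) (T : Tau H) {k N m : ℕ} (hm : m ≤ N)
    {F : A → A} (h : Rep H k N F) : Rep H k N fun x => F ((T.τ m)⁻¹ x) := by
  obtain ⟨u, h1, h2, h3, h4⟩ := h
  refine ⟨_, T.norm hfin m h1, fun x => ?_, fun x hx => ?_, fun x => ?_⟩
  · simpa [D] using Lp.iso (T.mem m) (h2 ((T.τ m)⁻¹ x))
  · have : (T.τ m)⁻¹ x ∉ B A N := fun h => hx (by
      simpa [D] using add_mem (B_mono hm (T.ex m ((T.τ m)⁻¹ x)).1) h)
    simp only [Equiv.Perm.mul_apply, h3 _ this]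
    simp
  · have := add_mem (h4 ((T.τ m)⁻¹ x))
      (B_mono (show k / 3 ≤ (k + 1) / 3 by omega) (T.mem m k _ _ (h2 ((T.τ m)⁻¹ x))))
    convert this using 1
    simp only [D, Equiv.Perm.mul_apply, Equiv.Perm.coe_inv, Equiv.apply_symm_apply]; abel

theorem Rep.conj (hfin : ∀ g ∈ H, ∃ n, ∀ x ∉ B A n, g x = x) (T : Tau H) {k N m : ℕ} (hm : m ≤ N)
    {F : A → A} (h : Rep H k N F) (j : ℕ) : Rep H k N fun x => F ((T.τ m ^ j)⁻¹ x) := by
  induction j with
  | zero => simpa using h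
  | succ j ih => simpa [pow_succ'] using ih.conj1 hfin T hm

theorem patch (hH : H ≤ GG A) (hfin : ∀ g ∈ H, ∃ n, ∀ x ∉ B A n, g x = x) (T : Tau H)
    {k N n : ℕ} {c : A} (h : Rep H k N fun x => if x ∈ B A n then c else 0) {F : A → A}
    (h1 : ∀ x ∈ B A N, ∃ j : ℕ, F x = j • c)
    (h2 : ∀ x y, x - y ∈ B A n → F x - F y ∈ B A ((k + 1) / 3)) (d : ℕ) :
    n + d ≤ N → ∀ z ∈ B A N, Rep H k N fun x => if x - z ∈ B A (n + d) then F x else 0 := by
  induction d with
  | zero =>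
    intro _ z hz
    obtain ⟨i, hi⟩ := cyc_ge (T.mem N) (T.ex N 0) z (by simpa using hz)
    obtain ⟨j, hj⟩ := h1 z hz
    refine ((h.conj hfin T le_rfl i).nsmul hH j).congr fun x => ?_
    have hs := (GG A).pow_mem (T.mem N) i
    have e : (T.τ N ^ i)⁻¹ x ∈ B A n ↔ x - z ∈ B A n := by
      rw [← hi]
      exact ⟨fun h => by simpa using Lp.iso hs (x := (T.τ N ^ i)⁻¹ x) (y := 0) (by simpa using h),
        fun h => by simpa using Lp.iso' hs (x := (T.τ N ^ i)⁻¹ x) (y := 0) (by simpa using h)⟩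
    simp only [Pi.smul_apply, e, add_zero]
    split_ifs with hx
    · rw [← hj]; exact h2 z x (by simpa using neg_mem hx)
    · simp
  | succ d ih =>
    intro hd z hz
    obtain ⟨e, he⟩ := exists_Ex' A (n + d)
    have he' := he.2 (n + d) (by omega)
    refine ((ih (by omega) z hz).add hH (ih (by omega) (z + e)
      (add_mem hz (B_mono hd he.1)))).congr fun x => ?_
    rw [Pi.add_apply, ← sub_sub x z e]
    by_cases a1 : x - z ∈ B A (n + d)
    · have a2 : x - z - e ∉ B A (n + d) := fun h => he' (by simpa using sub_mem a1 h)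
      have a3 : x - z ∈ B A (n + (d + 1)) := B_mono (by omega) a1
      simp [a1, a2, a3]
    · by_cases a3 : x - z ∈ B A (n + (d + 1))
      · have a2 : x - z - e ∈ B A (n + d) := sub_mem_B a3 he.1 a1 he'
        simp [a1, a2, a3]
      · have a2 : x - z - e ∉ B A (n + d) := fun h => a3 (by
          simpa using add_mem (B_mono (n := n + (d + 1)) (by omega) h) he.1)
        simp [a1, a2, a3]

theorem doubling (hH : H ≤ GG A) (hfin : ∀ g ∈ H, ∃ n, ∀ x ∉ B A n, g x = x) (T : Tau H)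
    {k N n i : ℕ} (hi : (k + 1) / 3 ≤ i) {F : A → A} (h : Rep H k N F) (h1 : ∀ x, F x ∈ B A (i + 1))
    (h2 : ∀ x y, x - y ∈ B A n → F x - F y ∈ B A ((k + 1) / 3)) (h3 : ∃ x, F x ∉ B A i) (d : ℕ) :
    n + d ≤ N → ∃ F, Rep H k N F ∧ (∀ x, F x ∈ B A (i + 1)) ∧
      (∀ x y, x - y ∈ B A n → F x - F y ∈ B A ((k + 1) / 3)) ∧
      (∀ x y, x - y ∈ B A (n + d) → F x - F y ∈ B A i) ∧ ∃ x, F x ∉ B A i := by
  induction d with
  | zero => exact fun _ => ⟨F, h, h1, h2, fun x y hxy => B_mono hi (h2 x y hxy), h3⟩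
  | succ d ih =>
    intro hd
    obtain ⟨F, a, a1, a2, a3, a4⟩ := ih (by omega)
    by_cases hc : ∀ x y, x - y ∈ B A (n + (d + 1)) → F x - F y ∈ B A i
    · exact ⟨F, a, a1, a2, hc, a4⟩
    set s := (T.τ (n + d + 1))⁻¹ with hs
    have hsG : Lp s := (GG A).inv_mem (T.mem _)
    have hsw : ∀ x y, x - y ∈ B A (n + d + 1) → x - y ∉ B A (n + d) → s x - y ∈ B A (n + d) := by
      intro x y b1 b2
      have b3 := T.ex (n + d + 1) (s x)
      simpa [D, hs] using sub_mem_B b1 b3.1 b2 (b3.2 _ (by omega))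
    refine ⟨_, a.add hH (a.conj1 hfin T (m := n + d + 1) hd), fun x => add_mem (a1 _) (a1 _),
      fun x y hxy => ?_, fun x y hxy => ?_, ?_⟩
    · have := add_mem (a2 x y hxy) (a2 _ _ (hsG.iso hxy))
      convert this using 1
      simp only [Pi.add_apply, hs]; abel
    · by_cases b : x - y ∈ B A (n + d)
      · have := add_mem (a3 x y b) (a3 _ _ (hsG.iso b))
        convert this using 1
        simp only [Pi.add_apply, hs]; abel
      · have := sub_mem (a3 _ _ (hsw x y hxy b)) (a3 _ _ (hsw y x (by simpa using! neg_mem hxy)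
          (fun h => b (by simpa using neg_mem h))))
        convert this using 1
        simp only [Pi.add_apply, hs]; abel
    · push Not at hc
      obtain ⟨x, y, b1, b2⟩ := hc
      refine ⟨x, fun h => b2 ?_⟩
      have := sub_mem (sub_mem h (a3 _ _ (hsw x y b1 fun h => b2 (a3 x y h)))) (two_mem.2 (a1 y))
      convert this using 1
      simp only [Pi.add_apply, hs, two_smul]; abel

theorem const_rep (hH : H ≤ GG A) (hfin : ∀ g ∈ H, ∃ n, ∀ x ∉ B A n, g x = x) (T : Tau H)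
    (k S d : ℕ) : (k + 1) / 3 + d ≤ k → ∃ n, S ≤ n ∧ Rep H k n fun x =>
      if x ∈ B A n then 2 ^ (k - ((k + 1) / 3 + d)) • D (T.τ k) 0 else 0 := by
  have hex : ∀ i, i ≤ k → Ex i (2 ^ (k - i) • D (T.τ k) 0) := fun i hi =>
    Ex.pow (by rw [Nat.add_sub_cancel' hi]; exact T.ex k 0)
  induction d with
  | zero =>
    intro hk
    refine ⟨S, le_rfl, (Rep.zero k S).congr fun x => ?_⟩
    split_ifs
    · simpa using (hex _ hk).1
    · simp
  | succ d ih =>
    intro hk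
    obtain ⟨n, hn, hr⟩ := ih (by omega)
    set i := (k + 1) / 3 + d with hi
    obtain ⟨u, hu, u1, u2, u3⟩ := T.app k n
    obtain ⟨N, hN⟩ := hfin u hu
    have r0 : Rep H k (n + N) (D u) :=
      ⟨u, hu, u1, fun x hx => hN x fun h => hx (B_mono (by omega) h), fun x => by simp⟩
    have hc' := hex (i + 1) hk
    obtain ⟨F, a, a1, a2, a3, x0, a4⟩ := doubling hH hfin T (n := n) (i := i) (by omega)
      (r0.nsmul hH (2 ^ (k - (i + 1))))
      (fun x => pow_mem_B.2 (B_mono (by omega) (u1 x)))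
      (fun x y hxy => by
        simp only [Pi.smul_apply, ← smul_sub]; exact nsmul_mem (u2 x y hxy) _)
      ⟨0, by
        have : D u 0 = D (T.τ k) 0 := by simp only [D, u3 0 (zero_mem _)]
        rw [Pi.smul_apply, this]; exact hc'.2 i (by omega)⟩ N le_rfl
    have hx0 : x0 ∈ B A (n + N) := by
      by_contra h
      exact a4 (B_mono (by omega) (a.out h))
    have hp := patch hH hfin T (hr.mono (Nat.le_add_right n N))
      (F := fun x => 2 ^ (k - (i + 1)) • D (T.τ k) 0 - F x)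
      (fun x hx => (hex i (by omega)).cyc (sub_mem_B hc'.1 (a1 x) (hc'.2 i (by omega))
        fun h => a4 (by simpa using add_mem (a3 x0 x (sub_mem hx0 hx)) h)))
      (fun x y hxy => by simpa using neg_mem (a2 x y hxy)) N le_rfl 0 (zero_mem _)
    refine ⟨n + N, by omega, (a.add hH hp).congr fun x => ?_⟩
    simp only [Pi.add_apply, sub_zero]
    split_ifs with hx
    · rw [hi, add_assoc]; simp
    · simpa using a.out hx

theorem exact_tr (hH : H ≤ GG A) (hfin : ∀ g ∈ H, ∃ n, ∀ x ∉ B A n, g x = x) (T : Tau H)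
    (s n : ℕ) (i : ℕ) : (∃ y ∈ H, (∀ x ∉ B A n, y x = x) ∧ ∀ x ∈ B A n, y x - T.τ (s + i) x ∈ B A i) →
      s + i ≤ n → ∃ y ∈ H, (∀ x ∉ B A n, y x = x) ∧ ∀ x ∈ B A n, y x = T.τ s x := by
  induction i with
  | zero =>
    rintro ⟨y, h1, h2, h3⟩ _
    exact ⟨y, h1, h2, fun x hx => sub_eq_zero.1 (B_zero.1 (h3 x hx))⟩
  | succ i ih =>
    rintro ⟨y, h1, h2, h3⟩ hn
    set t := T.τ (s + (i + 1)) with ht
    have htG : t ∈ GG A := T.mem _
    refine ih ⟨t * y * t⁻¹ * y, H.mul_mem (T.norm hfin _ h1) h1, fun x hx => ?_, fun x hx => ?_⟩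
      (by omega)
    · have : t⁻¹ x ∉ B A n := fun h => hx (by
        simpa [D, ht] using add_mem (B_mono hn (T.ex (s + (i + 1)) (t⁻¹ x)).1) h)
      simp only [Equiv.Perm.mul_apply, h2 _ hx, h2 _ this]
      simp
    · have e1 : D (t⁻¹ * y) x ∈ B A (i + 1) := by
        refine Lp.iso' htG ?_
        simpa using h3 x hx
      have e2 := sq_mem ((GG A).mul_mem ((GG A).inv_mem htG) (hH h1)) e1
      have e3 := Lp.iso htG (Lp.iso htG e2)
      rw [← T.sq]
      simpa [sq, ht, add_assoc] using e3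

theorem main_tr (hH : H ≤ GG A) (hfin : ∀ g ∈ H, ∃ n, ∀ x ∉ B A n, g x = x) (T : Tau H)
    (S s : ℕ) : ∃ n s', S ≤ n ∧ s ≤ s' ∧ ∃ y ∈ H, (∀ x ∉ B A n, y x = x) ∧
      ∀ x ∈ B A n, y x = T.τ s' x := by
  obtain ⟨n, hn, u, h1, -, h3, h4⟩ := const_rep hH hfin T (3 * s) (S + 3 * s) (2 * s) (by omega)
  refine ⟨n, 2 * s, by omega, by omega, exact_tr hH hfin T (2 * s) n s ⟨u, h1, h3, fun x hx => ?_⟩
    (by omega)⟩
  obtain ⟨v, -, -, v2, v3⟩ := T.app (3 * s) n
  have a1 := h4 x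
  have a2 := v2 x 0 (by simpa using hx)
  have e : 3 * s - ((3 * s + 1) / 3 + 2 * s) = 0 := by omega
  have e' : (3 * s + 1) / 3 = s := by omega
  simp only [hx, if_true, e, pow_zero, one_smul, D, v3 x hx, v3 0 (zero_mem _)] at a1 a2
  rw [e'] at a1 a2
  rw [show 2 * s + s = 3 * s by omega]
  simpa using sub_mem a1 a2

theorem perm_fin {S : Set A} (hS : S.Finite) : {g : Equiv.Perm A | ∀ x ∉ S, g x = x}.Finite := by
  refine Set.Finite.of_finite_image (f := fun g => S.restrict (g : A → A)) ?_ ?_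
  · haveI := hS.to_subtype
    refine (Set.Finite.pi' (t := fun _ : S => S) fun _ => hS).subset ?_
    rintro _ ⟨g, hg, rfl⟩ x
    by_contra h
    have e : g x = x := g.injective (hg _ h)
    exact h (show g x ∈ S by rw [e]; exact x.2)
  · intro g hg g' hg' h
    ext x
    by_cases hx : x ∈ S
    · exact congrFun h ⟨x, hx⟩
    · rw [hg x hx, hg' x hx]

theorem no_mnfc (hH : H ≤ GG A) (hfin : ∀ g ∈ H, ∃ n, ∀ x ∉ B A n, g x = x)
    (hn : ¬ ∀ a ∈ H, {b : Equiv.Perm A | ∃ c ∈ H, b = c * a * c⁻¹}.Finite) :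
    ∃ K < H, ∃ a ∈ K, ¬ {b : Equiv.Perm A | ∃ c ∈ K, b = c * a * c⁻¹}.Finite := by
  push Not at hn
  obtain ⟨a, ha, hinf⟩ := hn
  obtain ⟨n, hn⟩ := hfin a ha
  have h1 : ∃ x, ∀ m, ∃ g ∈ H, D g x ∉ B A m := by
    by_contra hc
    push Not at hc
    choose f hf using hc
    obtain ⟨M, hM⟩ := ((B_fin A n).image f).bddAbove
    refine hinf ((perm_fin (B_fin A (n + M))).subset ?_)
    rintro _ ⟨c, hc, rfl⟩ x hx
    have : c⁻¹ x ∉ B A n := fun h => hx (by
      simpa [D] using add_mem (B_mono (n := n + M) (le_trans (hM ⟨_, h, rfl⟩) (by omega))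
        (hf (c⁻¹ x) c hc)) (B_mono (by omega) h))
    simp only [Equiv.Perm.mul_apply, hn _ this]
    simp
  obtain ⟨x0, hx0⟩ := h1
  have h2 : ∀ y, ∃ g ∈ H, g x0 = y := by
    intro y
    obtain ⟨m, hm⟩ := exists_B (y - x0)
    obtain ⟨g, hg, hg'⟩ := hx0 m
    obtain ⟨j, hj⟩ := exists_Ex (D g x0)
    obtain ⟨i, hi⟩ := cyc_ge (hH hg) hj y (B_mono (by
      by_contra hc
      exact hg' (B_mono (by omega) hj.1)) hm)
    exact ⟨_, H.pow_mem hg i, hi⟩
  have htr : ∀ x y, ∃ g ∈ H, g x = y := by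
    intro x y
    obtain ⟨g, hg, rfl⟩ := h2 x
    obtain ⟨g', hg', rfl⟩ := h2 y
    exact ⟨g' * g⁻¹, H.mul_mem hg' (H.inv_mem hg), by simp⟩
  obtain ⟨T⟩ := exists_tau H hH hfin htr
  have key : ∀ s, ∃ m s', s ≤ s' ∧ ∃ y ∈ H ⊓ Subgroup.centralizer {T.τ (n + 1)},
      (∀ x ∉ B A m, y x = x) ∧ Ex s' (y 0) := by
    intro s
    obtain ⟨m, s', b1, b2, y, b3, b4, b5⟩ := main_tr hH hfin T (n + 1) s
    refine ⟨m, s', b2, y, ⟨b3, Subgroup.mem_centralizer_singleton_iff.2 ?_⟩, b4, ?_⟩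
    · ext x
      have c1 := B_mono b1 (T.ex (n + 1) x).1
      by_cases hx : x ∈ B A m
      · rw [Equiv.Perm.mul_apply, Equiv.Perm.mul_apply, b5 x hx,
          b5 _ (by simpa [D] using add_mem c1 hx)]
        exact congrFun (congrArg DFunLike.coe (T.comm s' (n + 1)).eq) x
      · rw [Equiv.Perm.mul_apply, Equiv.Perm.mul_apply, b4 x hx,
          b4 _ fun h => hx (by simpa [D] using sub_mem h c1)]
    · simpa [D, b5 0 (zero_mem _)] using T.ex s' 0
  refine ⟨H ⊓ Subgroup.centralizer {T.τ (n + 1)}, lt_of_le_of_ne inf_le_left fun e => ?_, ?_⟩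
  · have hc : a ∈ H ⊓ Subgroup.centralizer {T.τ (n + 1)} := e.symm ▸ ha
    have hc' := Subgroup.mem_centralizer_singleton_iff.1 hc.2
    have ha1 : a = 1 := by
      ext x
      by_cases hx : x ∈ B A n
      · have c1 : T.τ (n + 1) x ∉ B A n := fun h =>
          (T.ex (n + 1) x).2 n (by omega) (sub_mem h hx)
        have c2 : a (T.τ (n + 1) x) = T.τ (n + 1) (a x) := congrFun (congrArg DFunLike.coe hc') x
        rw [hn _ c1] at c2
        exact ((T.τ (n + 1)).injective c2).symm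
      · exact hn x hx
    refine hinf ((Set.finite_singleton 1).subset ?_)
    rintro _ ⟨c, -, rfl⟩
    simp [ha1]
  · obtain ⟨m, s, b1, y, b2, b3, b4⟩ := key 1
    refine ⟨y, b2, fun hf => ?_⟩
    have hf' : (⋃ b ∈ {b : Equiv.Perm A | ∃ c ∈ H ⊓ Subgroup.centralizer {T.τ (n + 1)},
        b = c * y * c⁻¹}, {x | b x ≠ x}).Finite := by
      refine hf.biUnion ?_
      rintro _ ⟨c, hc, rfl⟩
      obtain ⟨l, hl⟩ := hfin _ (H.mul_mem (H.mul_mem hc.1 b2.1) (H.inv_mem hc.1))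
      exact (B_fin A l).subset fun x hx => by_contra fun h => hx (hl x h)
    obtain ⟨l, hl⟩ := fin_sub hf'
    obtain ⟨-, s', c1, c, c2, -, c4⟩ := key (l + 1)
    refine c4.2 l (by omega) (hl _ (Set.mem_biUnion ⟨c, c2, rfl⟩ fun h => ?_))
    have h' : c (y 0) = c 0 := by simpa using h
    exact b4.2 0 (by omega) (B_zero.2 (c.injective h'))

variable (A) in
def G0 : Subgroup (Equiv.Perm A) where
  carrier := {g | g ∈ GG A ∧ ∃ n, ∀ x ∉ B A n, g x = x}
  one_mem' := ⟨one_mem _, 0, fun _ _ => rfl⟩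
  mul_mem' := fun {g h} ⟨a, n, hn⟩ ⟨b, m, hm⟩ => ⟨mul_mem a b, n + m, fun x hx => by
    rw [Equiv.Perm.mul_apply, hm x fun h => hx (B_mono (by omega) h),
      hn x fun h => hx (B_mono (by omega) h)]⟩
  inv_mem' := fun {g} ⟨a, n, hn⟩ => ⟨inv_mem a, n, fun x hx => by
    rw [Equiv.Perm.inv_eq_iff_eq, hn x hx]⟩

theorem G0_tr (x y : A) : ∃ g ∈ G0 A, g x = y := by
  obtain ⟨j, hj⟩ := exists_B (y - x)
  obtain ⟨l, hl⟩ := exists_B x
  set n := l + 3 * j with hn
  have ha : y - x ∈ B A n := B_mono (by omega) hj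
  let f : A → A → A := fun a z => if z ∈ B A n then z + a else z
  have hf : ∀ a ∈ B A n, ∀ z, f (-a) (f a z) = z := by
    intro a h z
    by_cases hz : z ∈ B A n
    · simp [f, hz, add_mem hz h]
    · simp [f, hz]
  refine ⟨⟨f (y - x), f (-(y - x)), hf _ ha, fun z => by simpa using hf _ (neg_mem ha) z⟩,
    ⟨fun m z w hzw => ?_, n, fun z hz => if_neg hz⟩, ?_⟩
  · show f (y - x) z - z - (f (y - x) w - w) ∈ _
    by_cases hz : z ∈ B A n <;> by_cases hw : w ∈ B A n <;> simp only [f, hz, hw, if_true, if_false]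
    · simp
    · have : n < m := by
        by_contra hc
        exact hw (by simpa using sub_mem hz (B_mono (not_lt.1 hc) hzw))
      simpa using B_mono (n := m / 3) (by omega) hj
    · have : n < m := by
        by_contra hc
        exact hz (by simpa using add_mem (B_mono (not_lt.1 hc) hzw) hw)
      simpa using B_mono (n := m / 3) (by omega) (neg_mem hj)
    · simp
  · show f (y - x) x = y
    simp [f, B_mono (show l ≤ n by omega) hl]

theorem G0_cyc {g : Equiv.Perm A} (hg : g ∈ GG A) (x : A) :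
    ∃ j, Set.range (fun n : ℤ => (g ^ n) x) = {y | y - x ∈ B A j} := by
  obtain ⟨j, hj⟩ := exists_Ex (D g x)
  refine ⟨j, Set.ext fun y => ⟨?_, fun hy => ?_⟩⟩
  · rintro ⟨n, rfl⟩
    exact cyc_le hg hj.1 n
  · obtain ⟨n, hn⟩ := cyc_ge hg hj y hy
    exact ⟨n, by simpa using hn⟩

theorem inf_A : Infinite A := by
  by_contra h
  rw [not_infinite_iff_finite] at h
  obtain ⟨n, hn⟩ := fin_sub (Set.finite_univ (α := A))
  obtain ⟨e, he⟩ := exists_Ex' A n
  exact he.2 n (by omega) (hn e trivial)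

end Pool.Agent.H.MP_e032dc_al
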