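import Pool.Agent.H.MP_e032dc_al.Basic

set_option maxHeartbeats 400000

namespace Pool.Agent.H.MP_e032dc_al

open Filter

variable {A : Type} [AddCommGroup A] [Pru A]

omit [Pru A] in
theorem supp_mem {g : Equiv.Perm A} {n : ℕ} (h : ∀ x ∉ B A n, g x = x) {x : A} (hx : x ∈ B A n) :
    g x ∈ B A n := by
  by_contra h'
  exact h' (by rw [g.injective (h _ h')]; exact hx)

omit [Pru A] in
theorem supp_D {g : Equiv.Perm A} {n : ℕ} (h : ∀ x ∉ B A n, g x = x) (x : A) : D g x ∈ B A n := by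
  by_cases hx : x ∈ B A n
  · exact sub_mem (supp_mem h hx) hx
  · simp [D, h x hx]

structure Tau (H : Subgroup (Equiv.Perm A)) where
  τ : ℕ → Equiv.Perm A
  mem : ∀ k, τ k ∈ GG A
  ex : ∀ k x, Ex k (D (τ k) x)
  sq : ∀ k, τ (k + 1) ^ 2 = τ k
  app : ∀ k n, ∃ u ∈ H, (∀ x, D u x ∈ B A k) ∧
    (∀ x y, x - y ∈ B A n → D u x - D u y ∈ B A ((k + 1) / 3)) ∧ ∀ x ∈ B A n, u x = τ k x

theorem exists_tau (H : Subgroup (Equiv.Perm A)) (hH : H ≤ GG A)
    (hfin : ∀ g ∈ H, ∃ n, ∀ x ∉ B A n, g x = x) (htr : ∀ x y, ∃ g ∈ H, g x = y) :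
    Nonempty (Tau H) := by
  classical
  have hg : ∀ m : ℕ, ∃ g ∈ H, ∃ L, m ≤ L ∧ (∀ x, D g x ∈ B A L) ∧ Ex L (D g 0) := by
    intro m
    obtain ⟨e, he⟩ := exists_Ex' A m
    obtain ⟨h, hh, h0⟩ := htr 0 e
    have hex : ∃ L, ∀ x, D h x ∈ B A L := (hfin h hh).imp fun n hn => supp_D hn
    have hL := Nat.find_spec hex
    have hm : m + 1 ≤ Nat.find hex := by
      by_contra hc
      exact he.2 _ (not_le.1 hc) (by simpa [D, h0] using hL 0)
    obtain ⟨L, eL⟩ : ∃ L, Nat.find hex = L + 1 := ⟨Nat.find hex - 1, by omega⟩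
    obtain ⟨x, hx⟩ := not_forall.1 (Nat.find_min hex (show L < Nat.find hex by omega))
    rw [eL] at hL
    obtain ⟨c, hc, c0⟩ := htr x 0
    refine ⟨c * h * c⁻¹, H.mul_mem (H.mul_mem hc hh) (H.inv_mem hc), L + 1, by omega, fun y => ?_, ?_⟩
    · simpa [D] using Lp.iso (hH hc) (hL (c⁻¹ y))
    · have := Lp.ex (hH hc) (Ex.of_not (hL x) hx)
      rw [← c0]
      simpa [D] using this
  choose g hgH L hL hD hE using hg
  let u : ℕ → ℕ → Equiv.Perm A := fun m k => g m ^ 2 ^ (L m - k)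
  have huH : ∀ m k, u m k ∈ H := fun m k => H.pow_mem (hgH m) _
  have huD : ∀ m k, k ≤ m → ∀ x, D (u m k) x ∈ B A k := fun m k h x =>
    B_mono (by have := hL m; omega) (pow_mem_D (hH (hgH m)) (hD m x) _)
  let U : Ultrafilter ℕ := hyperfilter ℕ
  have hge : ∀ k, ∀ᶠ m in (U : Filter ℕ), k ≤ m := fun k => Nat.hyperfilter_le_atTop (eventually_ge_atTop k)
  have lim : ∀ (f : ℕ → A) (x : A) (k : ℕ), (∀ m, k ≤ m → f m - x ∈ B A k) →
      ∃ y, ∀ᶠ m in (U : Filter ℕ), f m = y := by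
    intro f x k h
    obtain ⟨y, -, hy⟩ := (Ultrafilter.eventually_exists_mem_iff (f := U) (P := fun y m => f m = y)
      (ball_fin x k)).1 ((hge k).mono fun m hm => ⟨_, h m hm, rfl⟩)
    exact ⟨y, hy⟩
  choose t ht using fun k x => lim (fun m => u m k x) x k fun m hm => huD m k hm x
  have hbij : ∀ k, Function.Bijective (t k) := by
    intro k
    refine ⟨fun x y h => ?_, fun y => ?_⟩
    · obtain ⟨m, h1, h2⟩ := ((ht k x).and (ht k y)).exists
      exact (u m k).injective (h1.trans (h.trans h2.symm))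
    · obtain ⟨x, hx⟩ := lim (fun m => (u m k)⁻¹ y) y k fun m hm => by
        simpa [D] using neg_mem (huD m k hm ((u m k)⁻¹ y))
      obtain ⟨m, h1, h2⟩ := ((ht k x).and hx).exists
      exact ⟨x, by rw [← h1, ← h2]; simp⟩
  refine ⟨⟨fun k => Equiv.ofBijective _ (hbij k), fun k n x y hxy => ?_, fun k x => ?_,
    fun k => Equiv.ext fun x => ?_, fun k n => ?_⟩⟩
  · obtain ⟨m, h1, h2⟩ := ((ht k x).and (ht k y)).exists
    have := hH (huH m k) n x y hxy
    simp only [D, Equiv.ofBijective_apply, ← h1, ← h2] at this ⊢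
    exact this
  · obtain ⟨n, hn⟩ := exists_B x
    obtain ⟨m, h1, h2, h3⟩ := ((ht k x).and ((hge k).and (hge n))).exists
    have h4 : Ex (L m) (D (g m) x) := by
      have := (hE m).add (hH (hgH m) (L m) x 0 (by simpa using B_mono (h3.trans (hL m)) hn))
        (by omega)
      rwa [add_sub_cancel] at this
    have h5 := pow_ex (hH (hgH m)) (L m - k) (m := k)
      (by rwa [Nat.add_sub_cancel' (h2.trans (hL m))])
    simp only [D, Equiv.ofBijective_apply, ← h1] at h5 ⊢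
    exact h5
  · obtain ⟨m, h1, h2, h3, h4⟩ := ((ht k x).and ((ht (k + 1) x).and
      ((ht (k + 1) (t (k + 1) x)).and (hge (k + 1))))).exists
    have e : u m k = u m (k + 1) * u m (k + 1) := by
      simp only [u]
      rw [← sq, ← pow_mul, ← pow_succ]
      congr 2
      have := hL m
      omega
    show t (k + 1) (t (k + 1) x) = t k x
    rw [← h3, ← h2, ← h1, e]; rfl
  · obtain ⟨m, h1, h2⟩ := (((B_fin A n).eventually_all.2 fun x _ => ht k x).and (hge (k + n))).exists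
    refine ⟨u m k, huH m k, huD m k (by omega), fun x y hxy => ?_, h1⟩
    exact B_mono (by have := hL m; omega) (pure (hH (hgH m)) (hD m) hxy (L m - k))

theorem Tau.norm {H : Subgroup (Equiv.Perm A)} (T : Tau H)
    (hfin : ∀ g ∈ H, ∃ n, ∀ x ∉ B A n, g x = x) (k : ℕ) {a : Equiv.Perm A} (ha : a ∈ H) :
    T.τ k * a * (T.τ k)⁻¹ ∈ H := by
  obtain ⟨n, hn⟩ := hfin a ha
  have hn' : ∀ x ∉ B A (n + k), a x = x := fun x hx => hn x fun h => hx (B_mono (by omega) h)
  obtain ⟨u, hu, h1, -, h2⟩ := T.app k (n + k)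
  have : T.τ k * a * (T.τ k)⁻¹ = u * a * u⁻¹ := by
    ext y
    obtain ⟨x, rfl⟩ := (T.τ k).surjective y
    by_cases hx : x ∈ B A (n + k)
    · have e : u⁻¹ (T.τ k x) = x := by rw [← h2 x hx]; simp
      simp only [Equiv.Perm.mul_apply, e, h2 _ (supp_mem hn' hx)]
      simp
    · have e : u⁻¹ (T.τ k x) ∉ B A (n + k) := fun h => hx (by
        have a1 := B_mono (Nat.le_add_left k n) (h1 (u⁻¹ (T.τ k x)))
        have a2 := B_mono (Nat.le_add_left k n) (T.ex k x).1
        simpa [D] using sub_mem (add_mem a1 h) a2)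
      simp only [Equiv.Perm.mul_apply, hn' _ e]
      simp [hn' x hx]
  rw [this]
  exact H.mul_mem (H.mul_mem hu ha) (H.inv_mem hu)

theorem Tau.comm {H : Subgroup (Equiv.Perm A)} (T : Tau H) (j k : ℕ) :
    Commute (T.τ j) (T.τ k) := by
  have h : ∀ d j, T.τ j = T.τ (j + d) ^ 2 ^ d := by
    intro d
    induction d with
    | zero => simp
    | succ d ih => intro j; rw [ih j, ← T.sq, ← pow_mul, ← pow_succ', add_assoc]
  rw [h k j, h j k, add_comm k j]
  exact (Commute.refl _).pow_pow _ _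

end Pool.Agent.H.MP_e032dc_al
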